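import Pool.Agent.Helper47.FLG.Pde

/-! Packet FLG-INVF: `FG` is preserved by the Ricci flow. -/

set_option autoImplicit false

namespace Pool.Agent.Helper47.FLG

open Finset Pool.Agent.Helper47.RFn

namespace INVF32

variable {n : ℕ} {T : ℝ}

/-! ### elementary estimates (as in `Helper93/RFn/PRS.lean`) -/

theorem iota_le {ν : Ix n → ℝ} {ι : Ix n → Fin n → ℝ} (h : Iso ν ι) (i : Ix n) (a : Fin n) :
    |ι i a| ≤ 1 := by
  have h1 := h.compl i i
  rw [if_pos rfl] at h1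
  have h2 : ι i a * ι i a ≤ ∑ a, ι i a * ι i a :=
    Finset.single_le_sum (f := fun a => ι i a * ι i a) (fun a _ => mul_self_nonneg _)
      (Finset.mem_univ a)
  have h3 : 0 ≤ ν i * ν i := mul_self_nonneg _
  rw [abs_le_one_iff_mul_self_le_one]
  linarith

theorem abs_sum1 {m : ℕ} {f : Fin m → ℝ} {M : ℝ} (h : ∀ i, |f i| ≤ M) :
    |∑ i, f i| ≤ m * M := by
  refine (Finset.abs_sum_le_sum_abs _ _).trans ?_
  refine (Finset.sum_le_sum fun i _ => h i).trans ?_
  simp

theorem abs_sum4 {m : ℕ} {f : Fin m → Fin m → Fin m → Fin m → ℝ} {M : ℝ}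
    (h : ∀ i j k l, |f i j k l| ≤ M) : |∑ i, ∑ j, ∑ k, ∑ l, f i j k l| ≤ (m : ℝ) ^ 4 * M := by
  have h1 := abs_sum1 fun i => abs_sum1 fun j => abs_sum1 fun k => abs_sum1 fun l => h i j k l
  refine h1.trans (le_of_eq ?_)
  ring

theorem mul4_le {x a b c d ε : ℝ} (hx : |x| ≤ ε) (ha : |a| ≤ 1) (hb : |b| ≤ 1) (hc : |c| ≤ 1)
    (hd : |d| ≤ 1) : |x * a * b * c * d| ≤ ε := by
  rw [abs_mul, abs_mul, abs_mul, abs_mul]
  have h0 := abs_nonneg x
  calc |x| * |a| * |b| * |c| * |d| ≤ |x| * 1 * 1 * 1 * 1 := by gcongr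
    _ = |x| := by ring
    _ ≤ ε := hx

theorem abs_pull_le {ν : Ix n → ℝ} {ι : Ix n → Fin n → ℝ} (h : Iso ν ι) {X : T4 (n + 1)} {M : ℝ}
    (hX : ∀ i j k l, |X i j k l| ≤ M) (a b c d : Fin n) :
    |pull ι X a b c d| ≤ ((n : ℝ) + 1) ^ 4 * M := by
  have h1 : |∑ i, ∑ j, ∑ k, ∑ l, X i j k l * ι i a * ι j b * ι k c * ι l d| ≤
      (((n + 1 : ℕ) : ℝ)) ^ 4 * M := abs_sum4 fun i j k l =>
    mul4_le (hX i j k l) (iota_le h i a) (iota_le h j b) (iota_le h k c) (iota_le h l d)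
  rw [Nat.cast_add, Nat.cast_one] at h1
  exact h1

theorem pull_sub (ι : Ix n → Fin n → ℝ) (X Y : T4 (n + 1)) (a b c d : Fin n) :
    pull ι X a b c d - pull ι Y a b c d = pull ι (fun i j k l => X i j k l - Y i j k l) a b c d := by
  simp only [pull, sub_mul, Finset.sum_sub_distrib]

theorem abs_Ric_le {X : T4 n} {M : ℝ} (hX : ∀ i j k l, |X i j k l| ≤ M) (a c : Fin n) :
    |Ric X a c| ≤ n * M := abs_sum1 fun b => hX a b c b

theorem abs_one_le (i j : Fin n) : |(1 : M2 n) i j| ≤ 1 := by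
  rw [Matrix.one_apply]
  split_ifs <;> simp

theorem abs_wdg_le {A B : M2 n} {x y : ℝ} (hx : 0 ≤ x) (hA : ∀ i j, |A i j| ≤ x)
    (hB : ∀ i j, |B i j| ≤ y) (a b c d : Fin n) : |wdg A B a b c d| ≤ 2 * (x * y) := by
  have key : ∀ i j k l, |A i j * B k l| ≤ x * y := fun i j k l => by
    rw [abs_mul]
    exact mul_le_mul (hA i j) (hB k l) (abs_nonneg _) hx
  have h1 := abs_le.1 (key a c b d)
  have h2 := abs_le.1 (key a d b c)
  have h3 := abs_le.1 (key b d a c)
  have h4 := abs_le.1 (key b c a d)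
  rw [wdg, abs_le]
  constructor <;> linarith

theorem ev_lam (F : FB n T) (z : F.Z) (t : TI T) :
    F.ev z t F.lam = (∑ a, Ric (F.rv z t) a a) / n := by
  have h : ∀ a, F.ev z t (F.Ric a a) = Ric (F.rv z t) a a := fun a => by
    rw [FB.Ric, map_sum]
    rfl
  rw [FB.lam, map_smul, map_sum, smul_eq_mul, Finset.sum_congr rfl fun a _ => h a]
  ring

theorem ev_nunu {F : FB n T} (hF : F.Base) (z : F.Z) (t : TI T) :
    ∑ i, F.nv z t i ^ 2 = 1 := by
  have h := congrArg (F.ev z t) hF.nunu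
  rw [map_sum, map_one] at h
  rw [← h]
  refine Finset.sum_congr rfl fun i _ => ?_
  rw [map_pow]
  rfl

theorem Hop_sub_const (F : FB n T) (f : F.B) (c : ℝ) :
    F.Hop (f - algebraMap ℝ F.B c) = F.Hop f := by
  simp only [FB.Hop, FB.Lap, map_sub, Derivation.map_algebraMap, sub_zero]

theorem nrm_nonneg {m : ℕ} (v : Fin m → ℝ) : 0 ≤ nrm v := Finset.sum_nonneg fun i _ => sq_nonneg _

theorem wd_nonneg {m : ℕ} (u v : Fin m → ℝ) : 0 ≤ wd u v := by
  unfold wd nrm dot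
  have := Finset.sum_mul_sq_le_sq_mul_sq Finset.univ u v
  linarith

theorem wd_le {m : ℕ} {u v : Fin m → ℝ} (hu : nrm u ≤ 1) (hv : nrm v ≤ 1) : wd u v ≤ 1 := by
  unfold wd
  have h1 := nrm_nonneg u
  have h2 := nrm_nonneg v
  nlinarith [sq_nonneg (dot u v)]

theorem K2_Id4 {m : ℕ} (u v : Fin m → ℝ) : K2 (Id4 m) u v = wd u v := by
  have h1 : ∀ i j k l, Id4 m i j k l = (if i = k then (1:ℝ) else 0) * (if j = l then 1 else 0) -
      (if j = k then 1 else 0) * (if i = l then 1 else 0) := fun i j k l => by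
    simp only [Id4, wdg, Matrix.one_apply]
    ring
  have h2 : K2 (Id4 m) u v = (∑ a, u a * u a) * (∑ b, v b * v b) -
      (∑ a, u a * v a) * (∑ b, v b * u b) := by
    unfold K2
    simp only [h1, sub_mul, Finset.sum_sub_distrib, Finset.sum_mul_sum]
    congr 1
    · refine sum_congr rfl fun a _ => sum_congr rfl fun b _ => ?_
      simp only [ite_mul, mul_ite, one_mul, zero_mul, mul_one, mul_zero, Finset.sum_ite_eq,
        Finset.mem_univ, if_true]
      ring
    · refine sum_congr rfl fun a _ => sum_congr rfl fun b _ => ?_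
      simp only [ite_mul, mul_ite, one_mul, zero_mul, mul_one, mul_zero, Finset.sum_ite_eq,
        Finset.mem_univ, if_true]
      ring
  rw [h2]
  unfold wd nrm dot
  have e1 : ∀ w : Fin m → ℝ, ∑ a, w a * w a = ∑ a, w a ^ 2 := fun w =>
    sum_congr rfl fun a _ => by ring
  have e2 : ∑ b, v b * u b = ∑ b, u b * v b := sum_congr rfl fun a _ => mul_comm _ _
  rw [e1, e1, e2]
  ring

/-! ### the heat operator -/

/-- the heat operator as a linear map -/
noncomputable def HopL (F : FB n T) : F.B →ₗ[ℝ] F.B :=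
  (F.D : F.B →ₗ[ℝ] F.B) - ∑ a, (F.H a : F.B →ₗ[ℝ] F.B) ∘ₗ (F.H a : F.B →ₗ[ℝ] F.B)

theorem Hop_eq (F : FB n T) (f : F.B) : F.Hop f = HopL F f := by
  simp [HopL, FB.Hop, FB.Lap, LinearMap.sum_apply]

/-- sectional form with values in `B` -/
noncomputable def KB (F : FB n T) (S : Ix n → Ix n → Ix n → Ix n → F.B) (u v : Ix n → ℝ) : F.B :=
  ∑ a, ∑ b, ∑ c, ∑ d, (u a * v b * u c * v d) • S a b c d

theorem ev_KB (F : FB n T) (S : Ix n → Ix n → Ix n → Ix n → F.B) (u v : Ix n → ℝ) (z : F.Z)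
    (t : TI T) : F.ev z t (KB F S u v) = K2 (fun i j k l => F.ev z t (S i j k l)) u v := by
  unfold K2
  simp only [KB, map_sum, map_smul, smul_eq_mul]
  refine sum_congr rfl fun i _ => sum_congr rfl fun j _ => sum_congr rfl fun k _ =>
    sum_congr rfl fun l _ => by ring

theorem Hop_KB (F : FB n T) (S : Ix n → Ix n → Ix n → Ix n → F.B) (u v : Ix n → ℝ) :
    F.Hop (KB F S u v) = KB F (fun i j k l => F.Hop (S i j k l)) u v := by
  simp only [Hop_eq, KB, map_sum, map_smul]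

theorem der_P {F : FB n T} (X : Derivation ℝ F.B F.B) (hX : ∀ a, X (F.nu a) = 0) (a b : Ix n) :
    X (F.P a b) = 0 := by
  have h1 : X (F.dl a b) = 0 := by
    unfold FB.dl
    split_ifs <;> simp
  simp [FB.P, h1, hX]

theorem der_I {F : FB n T} (X : Derivation ℝ F.B F.B) (hX : ∀ a, X (F.nu a) = 0)
    (a b c d : Ix n) : X (F.I a b c d) = 0 := by
  simp [FB.I, der_P X hX]

theorem der_KI {F : FB n T} (X : Derivation ℝ F.B F.B) (hX : ∀ a, X (F.nu a) = 0)
    (u v : Ix n → ℝ) : X (KB F F.I u v) = 0 := by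
  simp [KB, map_sum, der_I X hX]

theorem Hop_mul_const (F : FB n T) (f g : F.B) (hg : ∀ a, F.H a g = 0) (hD : F.D g = 0) :
    F.Hop (f * g) = F.Hop f * g := by
  have h1 : ∀ a h, F.H a (h * g) = F.H a h * g := fun a h => by
    rw [Derivation.leibniz, hg, smul_zero, zero_add, smul_eq_mul, mul_comm]
  have h2 : F.D (f * g) = F.D f * g := by
    rw [Derivation.leibniz, hD, smul_zero, zero_add, smul_eq_mul, mul_comm]
  simp only [FB.Hop, FB.Lap, h1, h2, sub_mul, Finset.sum_mul]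

/-- the family -/
noncomputable def fam (F : FB n T) (S : Ix n → Ix n → Ix n → Ix n → F.B)
    (q : (Ix n → ℝ) × (Ix n → ℝ) × (Ix n → ℝ)) : F.B :=
  (4 : ℝ) • (KB F S q.2.2 q.1 * KB F F.I q.2.1 q.1) - KB F S q.2.1 q.1 * KB F F.I q.2.2 q.1 +
    (1 - KB F F.I q.2.1 q.1 * KB F F.I q.2.2 q.1)

theorem Hop_fam {F : FB n T} (hF : F.Base) (S : Ix n → Ix n → Ix n → Ix n → F.B)
    (q : (Ix n → ℝ) × (Ix n → ℝ) × (Ix n → ℝ)) : F.Hop (fam F S q) =
      (4 : ℝ) • (KB F (fun i j k l => F.Hop (S i j k l)) q.2.2 q.1 * KB F F.I q.2.1 q.1) -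
        KB F (fun i j k l => F.Hop (S i j k l)) q.2.1 q.1 * KB F F.I q.2.2 q.1 := by
  have hH : ∀ u v a, F.H a (KB F F.I u v) = 0 := fun u v a =>
    der_KI (F.H a) (fun b => hF.Hnu a b) u v
  have hD : ∀ u v, F.D (KB F F.I u v) = 0 := fun u v => der_KI F.D hF.Dnu u v
  have h1 : ∀ f u v, F.Hop (f * KB F F.I u v) = F.Hop f * KB F F.I u v := fun f u v =>
    Hop_mul_const F f _ (fun a => hH u v a) (hD u v)
  have h0 : F.Hop (1 : F.B) = 0 := by
    simp [FB.Hop, FB.Lap]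
  have h2 : ∀ u v, F.Hop (KB F F.I u v) = 0 := fun u v => by
    simp [FB.Hop, FB.Lap, hH, hD]
  have h3 : F.Hop (fam F S q) =
      (4 : ℝ) • F.Hop (KB F S q.2.2 q.1 * KB F F.I q.2.1 q.1) -
        F.Hop (KB F S q.2.1 q.1 * KB F F.I q.2.2 q.1) +
        (F.Hop 1 - F.Hop (KB F F.I q.2.1 q.1 * KB F F.I q.2.2 q.1)) := by
    simp only [fam, Hop_eq, map_add, map_sub, map_smul]
  rw [h3, h0, h1, h1, h1, h2, Hop_KB, Hop_KB]
  simp

theorem ev_P (F : FB n T) (z : F.Z) (t : TI T) (i j : Ix n) :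
    F.ev z t (F.P i j) = Pm (F.nv z t) i j := by
  simp only [FB.P, FB.dl, Pm, FB.nv, map_sub, map_mul]
  split_ifs <;> simp

theorem ev_I (F : FB n T) (z : F.Z) (t : TI T) :
    (fun i j k l => F.ev z t (F.I i j k l)) = wdg (Pm (F.nv z t)) (Pm (F.nv z t)) := by
  funext i j k l
  simp only [FB.I, map_sub, map_mul, ev_P, wdg]
  ring

theorem ev_KI (hDIC : G_DIC) (hRP3 : Goal_RP3) (hn : 2 ≤ n) (F : FB n T) (z : F.Z) (t : TI T)
    (ι : Ix n → Fin n → ℝ) (hι : Iso (F.nv z t) ι) (u v : Ix n → ℝ) :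
    F.ev z t (KB F F.I u v) = wd (pullr ι u) (pullr ι v) := by
  obtain ⟨e1, e2, -⟩ := hRP3 n _ ι hι
  rw [ev_KB, ev_I, (hDIC n hn _ ι _ hι e2).2.1, e1, K2_Id4]

theorem ev_fl (hDIC : G_DIC) (hRP3 : Goal_RP3) (hn : 2 ≤ n) (F : FB n T) (z : F.Z) (t : TI T)
    (ι : Ix n → Fin n → ℝ) (hι : Iso (F.nv z t) ι) (S : Ix n → Ix n → Ix n → Ix n → F.B)
    (hS : Hor (F.nv z t) (fun i j k l => F.ev z t (S i j k l)))
    (q : (Ix n → ℝ) × (Ix n → ℝ) × (Ix n → ℝ)) :
    F.ev z t ((4 : ℝ) • (KB F S q.2.2 q.1 * KB F F.I q.2.1 q.1) -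
        KB F S q.2.1 q.1 * KB F F.I q.2.2 q.1) =
      fl (pull ι (fun i j k l => F.ev z t (S i j k l))) (pullr ι q.1) (pullr ι q.2.1)
        (pullr ι q.2.2) := by
  rw [map_sub, map_smul, map_mul, map_mul, ev_KI hDIC hRP3 hn F z t ι hι,
    ev_KI hDIC hRP3 hn F z t ι hι, ev_KB, ev_KB, (hDIC n hn _ ι _ hι hS).2.1,
    (hDIC n hn _ ι _ hι hS).2.1, fl, smul_eq_mul]
  ring

theorem ev_fam (hDIC : G_DIC) (hRP3 : Goal_RP3) (hn : 2 ≤ n) (F : FB n T) (z : F.Z) (t : TI T)
    (ι : Ix n → Fin n → ℝ) (hι : Iso (F.nv z t) ι) (S : Ix n → Ix n → Ix n → Ix n → F.B)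
    (hS : Hor (F.nv z t) (fun i j k l => F.ev z t (S i j k l)))
    (q : (Ix n → ℝ) × (Ix n → ℝ) × (Ix n → ℝ)) :
    F.ev z t (fam F S q) =
      fl (pull ι (fun i j k l => F.ev z t (S i j k l))) (pullr ι q.1) (pullr ι q.2.1)
        (pullr ι q.2.2) + (1 - wd (pullr ι q.2.1) (pullr ι q.1) *
          wd (pullr ι q.2.2) (pullr ι q.1)) := by
  rw [fam, map_add, ev_fl hDIC hRP3 hn F z t ι hι S hS, map_sub, map_one, map_mul,
    ev_KI hDIC hRP3 hn F z t ι hι, ev_KI hDIC hRP3 hn F z t ι hι]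

/-- index set -/
def KK (n : ℕ) : Set ((Ix n → ℝ) × (Ix n → ℝ) × (Ix n → ℝ)) :=
  {q | nrm q.1 ≤ 1 ∧ nrm q.2.1 ≤ 1 ∧ nrm q.2.2 ≤ 1}

theorem cont_nrm {m : ℕ} : Continuous (fun v : Fin m → ℝ => nrm v) := by
  unfold nrm
  fun_prop

theorem norm_le_of_nrm {m : ℕ} {v : Fin m → ℝ} (hv : nrm v ≤ 1) : ‖v‖ ≤ 1 := by
  rw [pi_norm_le_iff_of_nonneg zero_le_one]
  intro i
  have h3 : v i ^ 2 ≤ 1 :=
    le_trans (Finset.single_le_sum (f := fun i => v i ^ 2)
      (fun j _ => sq_nonneg _) (Finset.mem_univ i)) hv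
  rw [Real.norm_eq_abs]
  exact abs_le_one_iff_mul_self_le_one.2 (by nlinarith)

theorem KK_compact (n : ℕ) : IsCompact (KK n) := by
  apply Metric.isCompact_of_isClosed_isBounded
  · apply IsClosed.inter
    · exact isClosed_le (cont_nrm.comp continuous_fst) continuous_const
    · apply IsClosed.inter
      · exact isClosed_le (cont_nrm.comp (continuous_fst.comp continuous_snd)) continuous_const
      · exact isClosed_le (cont_nrm.comp (continuous_snd.comp continuous_snd)) continuous_const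
  · refine (Metric.isBounded_closedBall
      (x := (0 : (Ix n → ℝ) × (Ix n → ℝ) × (Ix n → ℝ))) (r := 1)).subset ?_
    rintro q ⟨h1, h2, h3⟩
    rw [mem_closedBall_zero_iff, Prod.norm_def, Prod.norm_def]
    exact max_le (norm_le_of_nrm h1) (max_le (norm_le_of_nrm h2) (norm_le_of_nrm h3))

theorem cont_KB {F : FB n T} (hF : F.Base) (S : Ix n → Ix n → Ix n → Ix n → F.B)
    {X : Type} [TopologicalSpace X] (u v : X → Ix n → ℝ) (p : X → F.Z × TI T)
    (hu : Continuous u) (hv : Continuous v) (hp : Continuous p) :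
    Continuous (fun x => F.ev (p x).1 (p x).2 (KB F S (u x) (v x))) := by
  simp only [KB, map_sum, map_smul, smul_eq_mul]
  refine continuous_finset_sum _ fun i _ => continuous_finset_sum _ fun j _ =>
    continuous_finset_sum _ fun k _ => continuous_finset_sum _ fun l _ => ?_
  have h := (hF.cont (S i j k l)).comp hp
  have c : ∀ (w : X → Ix n → ℝ), Continuous w → ∀ i, Continuous (fun x => w x i) :=
    fun w hw i => (continuous_apply i).comp hw
  exact ((((c u hu i).mul (c v hv j)).mul (c u hu k)).mul (c v hv l)).mul h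

theorem cont_fam {F : FB n T} (hF : F.Base) (S : Ix n → Ix n → Ix n → Ix n → F.B) :
    Continuous (fun q : (KK n) × (F.Z × TI T) => F.ev q.2.1 q.2.2 (fam F S q.1.1)) := by
  have c1 : Continuous (fun q : (KK n) × (F.Z × TI T) => q.1.1.1) := by fun_prop
  have c2 : Continuous (fun q : (KK n) × (F.Z × TI T) => q.1.1.2.1) := by fun_prop
  have c3 : Continuous (fun q : (KK n) × (F.Z × TI T) => q.1.1.2.2) := by fun_prop
  have cp : Continuous (fun q : (KK n) × (F.Z × TI T) => q.2) := continuous_snd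
  have k := fun S u v hu hv => cont_KB hF S (X := (KK n) × (F.Z × TI T)) u v _ hu hv cp
  simp only [fam, map_add, map_sub, map_smul, map_mul, map_one, smul_eq_mul]
  exact ((continuous_const.mul ((k S _ _ c3 c1).mul (k F.I _ _ c2 c1))).sub
    ((k S _ _ c2 c1).mul (k F.I _ _ c3 c1))).add
    (continuous_const.sub ((k F.I _ _ c2 c1).mul (k F.I _ _ c3 c1)))

theorem nrm_iota {ν : Ix n → ℝ} {ι : Ix n → Fin n → ℝ} (h : Iso ν ι) (v : Fin n → ℝ) :
    nrm (fun i => ∑ a, ι i a * v a) = nrm v := by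
  unfold nrm
  calc ∑ i, (∑ a, ι i a * v a)^2 = ∑ i, ∑ a, ∑ b, (ι i a * ι i b) * (v a * v b) := by
        refine sum_congr rfl fun i _ => ?_
        rw [sq, Finset.sum_mul_sum]
        refine sum_congr rfl fun a _ => sum_congr rfl fun b _ => ?_
        ring
    _ = ∑ a, ∑ b, (∑ i, ι i a * ι i b) * (v a * v b) := by
        rw [Finset.sum_comm]
        refine sum_congr rfl fun a _ => ?_
        rw [Finset.sum_comm]
        refine sum_congr rfl fun b _ => ?_
        rw [Finset.sum_mul]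
    _ = _ := by
        refine sum_congr rfl fun a _ => ?_
        simp only [h.orth, ite_mul, one_mul, zero_mul, Finset.sum_ite_eq, Finset.mem_univ, if_true]
        ring

/-- all members of the family nonnegative: `FG` -/
theorem fg_of_nonneg (hDIC : G_DIC) (hRP3 : Goal_RP3) (hFG1 : G_FG1) (hn : 2 ≤ n) (F : FB n T)
    (z : F.Z) (t : TI T) (ι : Ix n → Fin n → ℝ) (hι : Iso (F.nv z t) ι)
    (S : Ix n → Ix n → Ix n → Ix n → F.B)
    (hS : Hor (F.nv z t) (fun i j k l => F.ev z t (S i j k l))) (s : T4 n)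
    (hs : pull ι (fun i j k l => F.ev z t (S i j k l)) = s) (hc : IsCurv s)
    (h : ∀ k : KK n, 0 ≤ F.ev z t (fam F S k.1)) : FG s := by
  obtain ⟨-, -, -, -, -, -, -, hdeg, hnd, -⟩ := hFG1 n
  obtain ⟨-, -, -, -, -, -, -, -, -, pv, -, -⟩ := hRP3 n _ ι hι
  refine ⟨hc, fun z' x' y' => ?_⟩
  by_cases h0 : wd x' z' * wd y' z' = 0
  · rw [hdeg s hc z' x' y' h0]
  · obtain ⟨z1, x1, y1, nz, nx, ny, xz, yz, hfl⟩ := hnd z' x' y' h0
    rw [hfl s hc]
    refine mul_nonneg (mul_nonneg (wd_nonneg _ _) (wd_nonneg _ _)) ?_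
    have h1 := h ⟨(fun i => ∑ a, ι i a * z1 a, fun i => ∑ a, ι i a * x1 a,
      fun i => ∑ a, ι i a * y1 a), by
        refine ⟨?_, ?_, ?_⟩
        · show nrm (fun i => ∑ a, ι i a * z1 a) ≤ 1
          rw [nrm_iota hι, nz]
        · show nrm (fun i => ∑ a, ι i a * x1 a) ≤ 1
          rw [nrm_iota hι, nx]
        · show nrm (fun i => ∑ a, ι i a * y1 a) ≤ 1
          rw [nrm_iota hι, ny]⟩
    rw [ev_fam hDIC hRP3 hn F z t ι hι S hS, hs] at h1
    simp only [pv] at h1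
    have w1 : wd x1 z1 = 1 := by rw [wd, nx, nz, xz]; norm_num
    have w2 : wd y1 z1 = 1 := by rw [wd, ny, nz, yz]; norm_num
    rw [fl, w1, w2] at h1
    linarith

/-- the exponential correction -/
theorem exists_bet {F : FB n T} (hF : F.Base) (ε C0 : ℝ) :
    ∃ bet : F.B, (∀ z (t : TI T), F.ev z t bet = ε * Real.exp (C0 * t)) ∧
      (∀ a, F.H a bet = 0) ∧ ∀ z t, F.ev z t (F.D bet) = C0 * F.ev z t bet := by
  have hφ : ContDiffOn ℝ ((⊤ : ℕ∞) : WithTop ℕ∞) (fun x : ℝ => ε * Real.exp (C0 * x))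
      Set.univ := by
    apply ContDiff.contDiffOn
    fun_prop
  obtain ⟨bet, hb⟩ := hF.comp _ Set.univ isOpen_univ hφ F.tt (fun z t => Set.mem_univ _)
  have hc := hF.chain _ Set.univ isOpen_univ hφ F.tt bet (fun z t => Set.mem_univ _) hb
  have hd : ∀ x : ℝ, deriv (fun x : ℝ => ε * Real.exp (C0 * x)) x = C0 * (ε * Real.exp (C0 * x)) := by
    intro x
    have h1 : HasDerivAt (fun x : ℝ => C0 * x) (C0 * 1) x := (hasDerivAt_id x).const_mul C0
    have h2 := (h1.exp).const_mul ε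
    rw [h2.deriv]
    ring
  refine ⟨bet, fun z t => by rw [hb, hF.tt_ev], fun a => ?_, fun z t => ?_⟩
  · apply hF.ext
    intro z t
    rw [(hc z t).1 a, hF.tt_H, map_zero, mul_zero]
  · rw [(hc z t).2.2, hF.tt_D, map_one, mul_one, hd, hb]

end INVF32

open INVF32 in
theorem g_INVF (hEVG : G_EVG) (hDIC : G_DIC) (hMP3 : Goal_MP3) (hMP1 : Goal_MP1)
    (hBDD : Goal_BDD) (hDELF : G_DELF) (hFG1 : G_FG1) (hFG2 : G_FG2) (hRP1 : Goal_RP1)
    (hRP2 : Goal_RP2) (hRP3 : Goal_RP3) (hEVS : Goal_EVS) (hRIC : Goal_RIC) (_hLN : Goal_LN)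
    (hCL : Goal_CL) : G_INVF := by
  intro n hn
  have hn' : (4 : ℝ) ≤ n := by exact_mod_cast hn
  refine ⟨(n : ℝ) ^ 5, by positivity, ?_⟩
  intro T F hF hRF hBd l0 hl0 hI
  have hb := hF.toBase
  have hHor : ∀ z t, Hor (F.nv z t) (F.rv z t) := (hRIC n T F hF).2.2.2.2.2.1
  have hIcr : ∀ z t ι, Iso (F.nv z t) ι → IsCurv (pull ι (F.rv z t)) := fun z t ι hι =>
    (hRP2 n _ ι _ hι (hHor z t)).1
  obtain ⟨-, cwdg, cId, cadd, csmul, csub, cRic, -, -⟩ := hCL n
  obtain ⟨fadd, fsmul, -, fladd, flsmul, flId, -, fdeg, -, Cf, hCf, hflb⟩ := hFG1 n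
  have hlam : ∀ z t ι, Iso (F.nv z t) ι → lam (pull ι (F.rv z t)) = F.ev z t F.lam := by
    intro z t ι hι
    rw [ev_lam, (hRP2 n _ ι _ hι (hHor z t)).2.2.2.2.1]
  haveI : CompactSpace (KK n) := isCompact_iff_compactSpace.1 (KK_compact n)
  -- (i)
  have hl : ∀ z t, l0 ≤ F.ev z t F.lam := by
    intro z t
    have hT : (t : ℝ) < T := t.2.2
    have h := hMP1 n T F hF.toBase (F.lam - algebraMap ℝ F.B l0) 0 t 0 1 le_rfl hT le_rfl
      one_pos ?_ ?_ z t t.2.1 le_rfl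
    · rw [map_sub, AlgHom.commutes] at h
      have h' : (algebraMap ℝ ℝ l0 : ℝ) = l0 := rfl
      rw [h'] at h
      linarith
    · intro ε hε
      obtain ⟨t0, ht0, -, hT0⟩ := hI (ε / ((n : ℝ) + 1) ^ 2) (by positivity)
      refine ⟨t0, ht0, fun z t _ ht => ?_⟩
      rw [zero_add] at ht
      obtain ⟨T0, hH, hP, hcl⟩ := hT0 z t ht
      obtain ⟨ι, hι⟩ := hRP1 n _ (ev_nunu hF.toBase z t)
      have h1 := (hP ι hι).2
      rw [(hRP2 n _ ι _ hι hH).2.2.2.2.1] at h1
      have h2 : |∑ a, ∑ b, (F.rv z t a b a b - T0 a b a b)| ≤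
          ((n + 1 : ℕ) : ℝ) * (((n + 1 : ℕ) : ℝ) * (ε / ((n : ℝ) + 1) ^ 2)) :=
        abs_sum1 fun a => abs_sum1 fun b => hcl a b a b
      have h3 : ((n + 1 : ℕ) : ℝ) * (((n + 1 : ℕ) : ℝ) * (ε / ((n : ℝ) + 1) ^ 2)) = ε := by
        push_cast
        field_simp
      rw [h3] at h2
      have h4 : (∑ a, ∑ b, (F.rv z t a b a b - T0 a b a b)) =
          (∑ a, Ric (F.rv z t) a a) - ∑ a, Ric T0 a a := by
        rw [← Finset.sum_sub_distrib]
        refine Finset.sum_congr rfl fun a _ => ?_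
        rw [Ric, Ric, Finset.sum_sub_distrib]
      rw [h4] at h2
      have h5 := (abs_le.1 h2).1
      rw [map_sub, AlgHom.commutes, ev_lam]
      have h' : (algebraMap ℝ ℝ l0 : ℝ) = l0 := rfl
      rw [h']
      have hn0 : (0 : ℝ) < n := by linarith
      rw [le_div_iff₀ hn0] at h1
      have h6 : l0 - ε ≤ (∑ a, Ric (F.rv z t) a a) / n := by
        rw [le_div_iff₀ hn0]
        nlinarith
      linarith
    · intro z t _ _ _ _ _
      rw [zero_mul, Hop_sub_const, (hEVS n T F (by omega) hF hRF).1, map_smul, map_sum,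
        smul_eq_mul]
      refine mul_nonneg (by positivity) (Finset.sum_nonneg fun a _ => ?_)
      rw [map_sum]
      refine Finset.sum_nonneg fun b _ => ?_
      rw [map_pow]
      exact sq_nonneg _
  -- (ii)
  have hmain : ∀ z0 (T1 : TI T) ι0, Iso (F.nv z0 T1) ι0 → FG (pull ι0 (F.rv z0 T1)) := by
    intro z0 T1 ι0 hι0
    have hT1 : (T1 : ℝ) < T := T1.2.2
    have hT10 : (0 : ℝ) < T1 := T1.2.1
    -- the bound of the curvature
    obtain ⟨M, hM0, hM⟩ : ∃ M : ℝ, 0 ≤ M ∧ ∀ z (t : TI T), (t : ℝ) ≤ T1 → ∀ i j k l,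
        |F.rv z t i j k l| ≤ M := by
      have h1 := (hBDD n T F hb).1
      choose C hC using fun i j k l => h1 (F.R i j k l) T1 hT1 (hBd i j k l)
      obtain ⟨M, hM⟩ := (Set.finite_range (fun q : Ix n × Ix n × Ix n × Ix n =>
        C q.1 q.2.1 q.2.2.1 q.2.2.2)).bddAbove
      refine ⟨max M 0, le_max_right _ _, fun z t ht i j k l => ?_⟩
      exact ((hC i j k l z t ht).trans (hM ⟨(i, j, k, l), rfl⟩)).trans (le_max_left _ _)
    obtain ⟨Ms, hMs⟩ : ∃ Ms, Ms = ((n : ℝ) + 1) ^ 4 * M + 2 := ⟨_, rfl⟩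
    have hMs0 : 0 ≤ Ms := by rw [hMs]; positivity
    obtain ⟨M', hM'⟩ : ∃ M', M' = 2 * (n * Ms * 1) := ⟨_, rfl⟩
    have hM'0 : 0 ≤ M' := by rw [hM']; positivity
    obtain ⟨C0, hC0⟩ : ∃ C0, C0 = 2 * Cf * M' + 1 := ⟨_, rfl⟩
    have hC0p : 0 < C0 := by rw [hC0]; positivity
    -- for small ε
    have key : ∀ ε, 0 < ε → ε ≤ Real.exp (-(C0 * T1)) →
        FG (pull ι0 (F.rv z0 T1) + (ε * Real.exp (C0 * T1)) • Id4 n) := by
      intro ε hε hεle
      obtain ⟨bet, hbet, hH, hD⟩ := exists_bet hb ε C0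
      have hbpos : ∀ z t, 0 < F.ev z t bet := fun z t => by rw [hbet]; positivity
      have hbge : ∀ z t, ε ≤ F.ev z t bet := fun z t => by
        rw [hbet]
        have h1 : 1 ≤ Real.exp (C0 * t) := Real.one_le_exp (mul_nonneg hC0p.le t.2.1.le)
        nlinarith
      have hb1 : ∀ z (t : TI T), (t : ℝ) ≤ T1 → F.ev z t bet ≤ 1 := fun z t ht => by
        rw [hbet]
        have h1 : Real.exp (C0 * t) ≤ Real.exp (C0 * T1) :=
          Real.exp_le_exp.2 (mul_le_mul_of_nonneg_left ht hC0p.le)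
        calc ε * Real.exp (C0 * t) ≤ Real.exp (-(C0 * T1)) * Real.exp (C0 * T1) :=
              mul_le_mul hεle h1 (Real.exp_pos _).le (Real.exp_pos _).le
          _ = 1 := by rw [← Real.exp_add]; simp
      have hEV := hEVG n (by omega) T F hF hRF bet hH
      have hIs : ∀ z t ι, Iso (F.nv z t) ι →
          IsCurv (pull ι (F.rv z t) + F.ev z t bet • Id4 n) := fun z t ι hι =>
        cadd _ _ (hIcr z t ι hι) (csmul _ _ cId)
      have hsm : ∀ z t ι, Iso (F.nv z t) ι → ∀ v, nrm v ≤ 1 → nrm (pullr ι v) ≤ 1 := by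
        intro z t ι hι v hv
        obtain ⟨-, -, -, -, -, -, -, -, -, -, nn, -⟩ := hRP3 n _ ι hι
        rw [nn]
        linarith [sq_nonneg (∑ i, F.nv z t i * v i)]
      have hfam : ∀ (k : KK n) z (t : TI T), (t : ℝ) ≤ T1 →
          0 < F.ev z t (fam F (Sg F bet) k.1) := by
        intro k z t ht
        refine hMP3 n T F hb (KK n) (fun k => fam F (Sg F bet) k.1) (cont_fam hb (Sg F bet)) 0 T1
          le_rfl hT1 ?_ ?_ k z t t.2.1 ht
        · -- near zero
          obtain ⟨t0, ht0, -, hT0⟩ := hI (ε / (Cf * ((n : ℝ) + 1) ^ 4)) (by positivity)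
          refine ⟨t0, ht0, fun k z t _ ht => ?_⟩
          rw [zero_add] at ht
          obtain ⟨T0, hH0, hP, hcl⟩ := hT0 z t ht
          obtain ⟨ι, hι⟩ := hRP1 n _ (ev_nunu hb z t)
          obtain ⟨e1, e2, -⟩ := hEV z t ι hι
          rw [ev_fam hDIC hRP3 (by omega) F z t ι hι _ e2, e1]
          obtain ⟨W, hW⟩ : ∃ W, W = wd (pullr ι k.1.2.1) (pullr ι k.1.1) *
            wd (pullr ι k.1.2.2) (pullr ι k.1.1) := ⟨_, rfl⟩
          have q1 := hsm z t ι hι _ k.2.1
          have q2 := hsm z t ι hι _ k.2.2.1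
          have q3 := hsm z t ι hι _ k.2.2.2
          have hW0 : 0 ≤ W := by rw [hW]; exact mul_nonneg (wd_nonneg _ _) (wd_nonneg _ _)
          have hW1 : W ≤ 1 := by
            rw [hW]
            exact mul_le_one₀ (wd_le q2 q1) (wd_nonneg _ _) (wd_le q3 q1)
          obtain ⟨hFG0, -⟩ := hP ι hι
          have hdc : IsCurv (pull ι (F.rv z t) - pull ι T0) :=
            csub _ _ (hIcr z t ι hι) hFG0.1
          have hdM : ∀ a b c d, |(pull ι (F.rv z t) - pull ι T0) a b c d| ≤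
              ((n : ℝ) + 1) ^ 4 * (ε / (Cf * ((n : ℝ) + 1) ^ 4)) := fun a b c d => by
            show |pull ι (F.rv z t) a b c d - pull ι T0 a b c d| ≤ _
            rw [pull_sub]
            exact abs_pull_le hι hcl a b c d
          have h1 := hflb _ _ hdc hdM (pullr ι k.1.1) (pullr ι k.1.2.1) (pullr ι k.1.2.2)
          rw [← hW] at h1 ⊢
          have h2 : Cf * (((n : ℝ) + 1) ^ 4 * (ε / (Cf * ((n : ℝ) + 1) ^ 4))) = ε := by
            field_simp
          rw [h2] at h1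
          have h3 := hFG0.2 (pullr ι k.1.1) (pullr ι k.1.2.1) (pullr ι k.1.2.2)
          have h4 : pull ι (F.rv z t) + F.ev z t bet • Id4 n =
              pull ι T0 + (pull ι (F.rv z t) - pull ι T0) + F.ev z t bet • Id4 n := by
            rw [add_sub_cancel]
          rw [h4, fladd, fladd, flsmul, flId]
          have h5 : 3 * wd (pullr ι k.1.2.1) (pullr ι k.1.1) *
              wd (pullr ι k.1.2.2) (pullr ι k.1.1) = 3 * W := by rw [hW]; ring
          rw [h5]
          have h6 := (abs_le.1 h1).1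
          have h7 : ε * (3 * W) ≤ F.ev z t bet * (3 * W) :=
            mul_le_mul_of_nonneg_right (hbge z t) (by linarith)
          have h8 : 0 < 2 * ε * W + (1 - W) := by
            rcases hW1.eq_or_lt with h | h
            · rw [h]; linarith
            · have : 0 ≤ 2 * ε * W := by positivity
              linarith
          linarith
        · -- touching point
          intro k z t ht0 htT hz hall
          obtain ⟨ι, hι⟩ := hRP1 n _ (ev_nunu hb z t)
          obtain ⟨e1, e2, e3, e4, -⟩ := hEV z t ι hι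
          have hs := hIs z t ι hι
          have hFG := fg_of_nonneg hDIC hRP3 hFG1 (by omega) F z t ι hι _ e2 _ e1 hs
            (fun k' => hall k' z)
          have e5 := e4 _ rfl
          obtain ⟨s, hsd⟩ : ∃ s, s = pull ι (F.rv z t) + F.ev z t bet • Id4 n := ⟨_, rfl⟩
          rw [← hsd] at e1 hs hFG e5
          rw [ev_fam hDIC hRP3 (by omega) F z t ι hι _ e2, e1] at hz
          obtain ⟨W, hW⟩ : ∃ W, W = wd (pullr ι k.1.2.1) (pullr ι k.1.1) *
            wd (pullr ι k.1.2.2) (pullr ι k.1.1) := ⟨_, rfl⟩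
          have q1 := hsm z t ι hι _ k.2.1
          have q2 := hsm z t ι hι _ k.2.2.1
          have q3 := hsm z t ι hι _ k.2.2.2
          have hW1 : W ≤ 1 := by
            rw [hW]
            exact mul_le_one₀ (wd_le q2 q1) (wd_nonneg _ _) (wd_le q3 q1)
          rw [← hW] at hz
          have h1 := hFG.2 (pullr ι k.1.1) (pullr ι k.1.2.1) (pullr ι k.1.2.2)
          have h2 : W = 1 := by linarith
          have h3 : fl s (pullr ι k.1.1) (pullr ι k.1.2.1) (pullr ι k.1.2.2) = 0 := by linarith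
          have h4 := hDELF n hn s hFG _ _ _ h3
          show 0 < F.ev z t (F.Hop (fam F (Sg F bet) k.1))
          rw [Hop_fam hb, ev_fl hDIC hRP3 (by omega) F z t ι hι _ e3, e5, sub_eq_add_neg,
            ← neg_smul, fladd, fladd, flsmul, flsmul, flsmul, flId]
          have h5 : 3 * wd (pullr ι k.1.2.1) (pullr ι k.1.1) *
              wd (pullr ι k.1.2.2) (pullr ι k.1.1) = 3 := by rw [mul_assoc, ← hW, h2]; ring
          rw [h5, hD]
          -- the bound of the middle term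
          have hsb : ∀ a b c d, |s a b c d| ≤ Ms := by
            intro a b c d
            have r1 := abs_pull_le hι (hM z t htT) a b c d
            have r2 : |Id4 n a b c d| ≤ 2 * (1 * 1) :=
              abs_wdg_le zero_le_one abs_one_le abs_one_le a b c d
            have r3 : |F.ev z t bet * Id4 n a b c d| ≤ 1 * (2 * (1 * 1)) := by
              rw [abs_mul, abs_of_pos (hbpos z t)]
              exact mul_le_mul (hb1 z t htT) r2 (abs_nonneg _) zero_le_one
            have r4 : s a b c d = pull ι (F.rv z t) a b c d + F.ev z t bet * Id4 n a b c d := by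
              rw [hsd]; rfl
            rw [r4, hMs]
            refine (abs_add_le _ _).trans ?_
            linarith
          have hwb : ∀ a b c d, |wdg (Ric s) 1 a b c d| ≤ M' := fun a b c d => by
            rw [hM']
            exact abs_wdg_le (by positivity) (abs_Ric_le hsb) abs_one_le a b c d
          have hwc : IsCurv (wdg (Ric s) 1) :=
            cwdg _ _ (cRic s hs).1 Matrix.isSymm_one
          have h6 := hflb _ _ hwc hwb (pullr ι k.1.1) (pullr ι k.1.2.1) (pullr ι k.1.2.2)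
          rw [← hW, h2, mul_one] at h6
          have h7 := (abs_le.1 h6).2
          obtain ⟨β, hβ⟩ : ∃ β, β = F.ev z t bet := ⟨_, rfl⟩
          have hβ0 : 0 < β := by rw [hβ]; exact hbpos z t
          rw [← hβ]
          have h8 : 4 * β * fl (wdg (Ric s) 1) (pullr ι k.1.1) (pullr ι k.1.2.1)
              (pullr ι k.1.2.2) ≤ 4 * β * (Cf * M') :=
            mul_le_mul_of_nonneg_left h7 (by linarith)
          have h9 : 0 ≤ 2 * ((n : ℝ) - 1) * β ^ 2 := by
            have : 0 ≤ (n : ℝ) - 1 := by linarith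
            positivity
          have h10 : 0 ≤ β * (Cf * M') := by positivity
          rw [hC0]
          nlinarith
      have hfin := fg_of_nonneg hDIC hRP3 hFG1 (by omega) F z0 T1 ι0 hι0 (Sg F bet)
        (hEV z0 T1 ι0 hι0).2.1 _ (hEV z0 T1 ι0 hι0).1 (hIs z0 T1 ι0 hι0)
        (fun k => (hfam k z0 T1 le_rfl).le)
      rwa [hbet] at hfin
    -- ε → 0
    refine ⟨hIcr z0 T1 ι0 hι0, fun z x y => ?_⟩
    refine le_of_forall_pos_le_add fun η hη => ?_
    obtain ⟨E, hE⟩ : ∃ E, E = Real.exp (C0 * T1) := ⟨_, rfl⟩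
    have hE0 : 0 < E := by rw [hE]; exact Real.exp_pos _
    obtain ⟨W, hW⟩ : ∃ W, W = wd x z * wd y z := ⟨_, rfl⟩
    have hW0 : 0 ≤ W := by rw [hW]; exact mul_nonneg (wd_nonneg _ _) (wd_nonneg _ _)
    obtain ⟨ε, hε⟩ : ∃ ε, ε = min (Real.exp (-(C0 * T1))) (η / (3 * E * W + 1)) := ⟨_, rfl⟩
    have hden : 0 < 3 * E * W + 1 := by positivity
    have hεp : 0 < ε := by
      rw [hε]; exact lt_min (Real.exp_pos _) (by positivity)
    have h1 := (key ε hεp (by rw [hε]; exact min_le_left _ _)).2 z x y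
    rw [fladd, flsmul, flId, ← hE] at h1
    have h2 : ε ≤ η / (3 * E * W + 1) := by rw [hε]; exact min_le_right _ _
    rw [le_div_iff₀ hden] at h2
    have h3 : 3 * wd x z * wd y z = 3 * W := by rw [hW]; ring
    rw [h3] at h1
    nlinarith
  refine ⟨fun z t => ⟨hl z t, fun i j k l => ?_⟩, hmain⟩
  obtain ⟨ι, hι⟩ := hRP1 n _ (ev_nunu hF.toBase z t)
  have h1 := (hFG2 n hn _ (hmain z t ι hι)).2.1
  rw [hlam z t ι hι] at h1
  have h2 := (hRP2 n _ ι _ hι (hHor z t)).2.1 i j k l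
  have h3 : |∑ a, ∑ b, ∑ c, ∑ d, pull ι (F.rv z t) a b c d * ι i a * ι j b * ι k c * ι l d| ≤
      (n : ℝ) ^ 4 * ((n : ℝ) * F.ev z t F.lam) := abs_sum4 fun a b c d =>
    mul4_le (h1 a b c d) (iota_le hι i a) (iota_le hι j b) (iota_le hι k c) (iota_le hι l d)
  rw [← h2] at h3
  refine h3.trans (le_of_eq ?_)
  ring

end Pool.Agent.Helper47.FLG
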